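import Pool.Agent.T2H29.SW.Y8

/-!
# The Burgess bound for Hecke L-functions of all number fields, all conductors

`K` is any number field, `m = [K : ℚ]`, and `χ` is any primitive unitary Hecke character of `K`
modulo any ideal `𝔮`, of any infinite type `∏_v (σ_v α / |σ_v α|) ^ k_v |σ_v α| ^ (i τ_v)`.  Then
`L(s, χ) = ∑_I χ(I) N(I)^(-s)` is entire and

`|L(1/2 + i t, χ)| ≤ C(K, ε) ((1 + |t|) (1 + ∑ (|k_v| + |τ_v|))) ^ (3 m + 1) N(𝔮)^(3/16 + ε)`.

No condition is placed on the factorisation of `𝔮` (no cube-free, smoothness or coprimality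
hypothesis) and all primes are allowed, above `2`, ramified, of any degree.

Proof (modules `Pool.Agent.T2H29.SW`, files `U1`-`U16`, `Y1`-`Y8`): the method of Burgess for Gaussian
sums over the balanced ideal lattices of `K`.  The sum over `α` is shifted by `a β`, where `a` runs
over the algebraic integers prime to the modulus with all conjugates of size about `R` (their number is
bounded below by a sieve with Gaussian weights), the variables are separated by the Fourier transform,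
and Hölder's inequality leads to the number of solutions of `a' α ≡ a α'` and to the fourth moment of
short sums, i.e. to the complete sums `∑ χ((x + b1)(x + b2)) conj χ((x + b3)(x + b4))`.  These are
bounded by Weil's bound over the residue fields and, modulo all higher powers `P ^ k`, by
`O(N(P)^(k/2) N(P)^(v(b1 - b3) + v(b1 - b4)))`: stationary points, a direct count of the solutions of the
quadratic stationary equation, and a Gauss sum argument for odd `k`; the primes above `2` cost a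
constant depending on `K` only.
-/

set_option autoImplicit false

open NumberField NumberField.InfinitePlace

namespace Pool.Agent.Results.MP_52e316_nt.HeckeBurgessAllGLm

variable {K : Type} [Field K] [NumberField K]

/-- The unitary character `α ↦ ∏_v (σ_v α / |σ_v α|) ^ k_v |σ_v α| ^ (i τ_v)`; `σ_v` is an
embedding for the infinite place `v` and `|σ_v α| = v α`.  At a real place the first factor is the
`k_v`-th power of the sign. -/
noncomputable def infType (k : InfinitePlace K → ℤ) (τ : InfinitePlace K → ℝ) (α : K) : ℂ :=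
  ∏ v : InfinitePlace K, (v.embedding α / ((v α : ℝ) : ℂ)) ^ k v *
    ((v α : ℝ) : ℂ) ^ ((τ v : ℂ) * Complex.I)

/-- `χ` is a primitive unitary Hecke character of `K` modulo `𝔪` of infinite type given by `k` and
`τ`, extended by zero to the ideals not coprime to `𝔪`. -/
structure IsPrimitiveHecke (𝔪 : Ideal (𝓞 K)) (k : InfinitePlace K → ℤ)
    (τ : InfinitePlace K → ℝ) (χ : Ideal (𝓞 K) →* ℂ) : Prop where
  /-- it vanishes at the ideals not coprime to `𝔪` -/
  zero : ∀ I, ¬ IsCoprime I 𝔪 → χ I = 0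
  /-- it is unitary -/
  norm : ∀ I, IsCoprime I 𝔪 → ‖χ I‖ = 1
  /-- the values at the principal ideals `(α)`, `α ≡ 1` modulo `𝔪` -/
  infinite_type : ∀ α : 𝓞 K, α - 1 ∈ 𝔪 → χ (Ideal.span {α}) = infType k τ (α : K)
  /-- it does not have this property modulo any larger ideal `𝔫` -/
  primitive : ∀ 𝔫 : Ideal (𝓞 K), 𝔪 < 𝔫 → ∃ α : 𝓞 K, α - 1 ∈ 𝔫 ∧
    IsCoprime (Ideal.span {α}) 𝔪 ∧ χ (Ideal.span {α}) ≠ infType k τ (α : K)

theorem result (K : Type) [Field K] [NumberField K] (ε : ℝ) (hε : 0 < ε) : ∃ C : ℝ, 0 < C ∧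
    ∀ (𝔮 : Ideal (𝓞 K)) (k : InfinitePlace K → ℤ) (τ : InfinitePlace K → ℝ)
    (χ : Ideal (𝓞 K) →* ℂ), 𝔮 ≠ ⊥ → 𝔮 ≠ ⊤ → IsPrimitiveHecke 𝔮 k τ χ →
    ∃ L : ℂ → ℂ, Differentiable ℂ L ∧
    (∀ s : ℂ, 1 < s.re →
      HasSum (fun I : Ideal (𝓞 K) => χ I * (Ideal.absNorm I : ℂ) ^ (-s)) (L s)) ∧
    ∀ t : ℝ, ‖L (1 / 2 + t * Complex.I)‖ ≤
      C * ((1 + ∑ v, (|(k v : ℝ)| + |τ v|)) * (1 + |t|)) ^ (3 * Module.finrank ℚ K + 1) *
        (Ideal.absNorm 𝔮 : ℝ) ^ (3 / 16 + ε : ℝ) := by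
  obtain ⟨C, hC0, hC⟩ := Pool.Agent.T2H29.SW.Y_thm K ε hε
  refine ⟨C, hC0, fun 𝔮 k τ χ hbot htop hχ => ?_⟩
  have hinf : ∀ α : 𝓞 K, α ≠ 0 → Pool.Agent.T2H29.SW.infK (k, τ) (α : K) = infType k τ (α : K) :=
    fun α hα => Pool.Agent.T2H29.SW.infK_ityp (k, τ) (by exact_mod_cast hα)
  have e1 : (⊤ : Ideal (𝓞 K)) * 𝔮 = 𝔮 := Ideal.top_mul 𝔮
  have hm : Pool.Agent.T2H29.SW.HeckeM 𝔮 (k, τ) χ := by
    refine ⟨hχ.zero, hχ.norm, ?_, ?_⟩
    · intro α hα
      have h0 : α ≠ 0 := by
        rintro rfl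
        apply htop
        rw [Ideal.eq_top_iff_one]
        have := neg_mem hα
        simpa using this
      rw [hinf α h0]
      exact hχ.infinite_type α hα
    · intro 𝔫 h𝔫
      obtain ⟨α, h1, h2, h3⟩ := hχ.primitive 𝔫 h𝔫
      refine ⟨α, h1, h2, ?_⟩
      rw [hinf α (Pool.Agent.T2H29.SW.cop_ne htop h2)]
      exact h3
  obtain ⟨L, hL1, hL2, hL3⟩ := hC ⊤ 𝔮 (k, τ) χ (by rwa [e1]) (by rwa [e1])
    (by rw [Ideal.isCoprime_iff_sup_eq]; exact top_sup_eq _) (by rwa [e1])
  refine ⟨L, hL1, hL2, fun t => (hL3 t).trans (le_of_eq ?_)⟩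
  have hQ0 : (0 : ℝ) < Ideal.absNorm 𝔮 := by
    exact_mod_cast Pool.Agent.T2H29.SW.nrm_pos hbot
  rw [e1, Ideal.absNorm_top, Nat.cast_one, Real.one_rpow, one_mul, mul_assoc,
    ← Real.rpow_add hQ0, add_comm ε]
  rfl

end Pool.Agent.Results.MP_52e316_nt.HeckeBurgessAllGLm
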