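import Pool.Agent.T2H29.SW.X15

/-!
# A sub-Weyl bound in the depth aspect for Hecke L-functions of all number fields

`K` is any number field, `P` a prime ideal of degree one over `p ≥ 7`, unramified, and `χ` any
unitary Hecke character of `K` modulo `𝔣 P ^ ν`, primitive at `P`, where `𝔣` is any ideal with norm
prime to `p`, of any infinite type `∏_v (σ_v α / |σ_v α|) ^ k_v |σ_v α| ^ (i τ_v)`.  Then
`L(s, χ) = ∑_I χ(I) N(I)^(-s)` is entire and

`|L(1/2 + i t, χ)| ≤ C(K, ε) (N𝔣 (1 + |t|) (1 + ∑ (|k_v| + |τ_v|))) ^ (3 m + 1) p⁴ (p^ν)^(19/116 + ε)`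

with `m = [K : ℚ]`.  By automorphic induction `L(s, χ)` is the standard L-function of an
automorphic representation of `GL(m)` of conductor `|d_K| N𝔣 p^ν` (if `χ` is primitive), so this is
a bound of sub-Weyl quality (`19/116 < 1/6`) for L-functions of `GL(m)` for every `m`.

Proof (modules `Pool.Agent.T2H29.SW`): `L(s, χ)` is a Mellin transform, over the logarithmic space
of `K` modulo units, of sums `∑_{z ∈ ℤ^m} F(z) W(A z)`, where `F` is the finite part of `χ`, `A` runs
through matrices of ideal lattices, and `W` is a compactly supported smooth function built from the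
infinite type; its Fourier transform is bounded polynomially in the infinite type.  All sublattices
`z_o ≡ 0 (mod p^k)` of these lattices are balanced (by the inequality between the means their
minimum is as large as it can be, up to a constant depending on `K`); for such lattices the
Gaussian sums are estimated by `p`-adic van der Corput differencing and completion in `m`
variables, starting from the local analysis of the case `K = ℚ` (`SubWeylPrimePowers`).
-/

set_option autoImplicit false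

open NumberField NumberField.InfinitePlace

namespace Pool.Agent.Results.MP_52e316_nt.HeckeDepthSubWeylGLm

variable {K : Type} [Field K] [NumberField K]

/-- `P` is a prime ideal of degree one over the rational prime `p`, unramified. -/
structure IsDegreeOne (P : Ideal (𝓞 K)) (p : ℕ) : Prop where
  /-- it is a prime ideal -/
  isPrime : P.IsPrime
  /-- of degree one -/
  absNorm_eq : Ideal.absNorm P = p
  /-- unramified -/
  unramified : (p : 𝓞 K) ∉ P ^ 2

/-- The unitary character `α ↦ ∏_v (σ_v α / |σ_v α|) ^ k_v |σ_v α| ^ (i τ_v)`; `σ_v` is an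
embedding for the infinite place `v` and `|σ_v α| = v α`.  At a real place the first factor is the
`k_v`-th power of the sign. -/
noncomputable def infType (k : InfinitePlace K → ℤ) (τ : InfinitePlace K → ℝ) (α : K) : ℂ :=
  ∏ v : InfinitePlace K, (v.embedding α / ((v α : ℝ) : ℂ)) ^ k v *
    ((v α : ℝ) : ℂ) ^ ((τ v : ℂ) * Complex.I)

/-- `χ` is a unitary Hecke character of `K` modulo `𝔣 P ^ ν` of infinite type given by `k` and `τ`,
extended by zero to the ideals not coprime to the modulus, and it is not a character modulo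
`𝔣 P ^ (ν - 1)`. -/
structure IsHecke (𝔣 P : Ideal (𝓞 K)) (ν : ℕ) (k : InfinitePlace K → ℤ)
    (τ : InfinitePlace K → ℝ) (χ : Ideal (𝓞 K) →* ℂ) : Prop where
  /-- it vanishes at the ideals not coprime to the modulus -/
  zero : ∀ I, ¬ IsCoprime I (𝔣 * P ^ ν) → χ I = 0
  /-- it is unitary -/
  norm : ∀ I, IsCoprime I (𝔣 * P ^ ν) → ‖χ I‖ = 1
  /-- the values at the principal ideals `(α)`, `α ≡ 1` modulo `𝔣 P ^ ν` -/
  infinite_type : ∀ α : 𝓞 K, α - 1 ∈ 𝔣 * P ^ ν → χ (Ideal.span {α}) = infType k τ (α : K)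
  /-- it does not have this property modulo `𝔣 P ^ (ν - 1)` -/
  primitive : ∃ α : 𝓞 K, α - 1 ∈ 𝔣 * P ^ (ν - 1) ∧ IsCoprime (Ideal.span {α}) (𝔣 * P ^ ν) ∧
    χ (Ideal.span {α}) ≠ infType k τ (α : K)

theorem result (K : Type) [Field K] [NumberField K] (ε : ℝ) (hε : 0 < ε) : ∃ C : ℝ, 0 < C ∧
    ∀ (𝔣 P : Ideal (𝓞 K)) (p ν : ℕ) (k : InfinitePlace K → ℤ) (τ : InfinitePlace K → ℝ)
    (χ : Ideal (𝓞 K) →* ℂ),
    p.Prime → 7 ≤ p → IsDegreeOne P p → ¬ p ∣ Ideal.absNorm 𝔣 → 1 ≤ ν → IsHecke 𝔣 P ν k τ χ →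
    ∃ L : ℂ → ℂ, Differentiable ℂ L ∧
    (∀ s : ℂ, 1 < s.re →
      HasSum (fun I : Ideal (𝓞 K) => χ I * (Ideal.absNorm I : ℂ) ^ (-s)) (L s)) ∧
    ∀ t : ℝ, ‖L (1 / 2 + t * Complex.I)‖ ≤
      C * (Ideal.absNorm 𝔣 * ((1 + ∑ v, (|(k v : ℝ)| + |τ v|)) * (1 + |t|))) ^
        (3 * Module.finrank ℚ K + 1) * (p : ℝ) ^ 4 * ((p : ℝ) ^ ν) ^ ((19 : ℝ) / 116 + ε) := by
  obtain ⟨C, hC0, hC⟩ := Pool.Agent.T2H29.SW.G_thm K ε hε
  refine ⟨C, hC0, fun 𝔣 P p ν k τ χ hp hp7 hP hf hν hχ => ?_⟩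
  have hD : Pool.Agent.T2H29.SW.Deg1 P p := ⟨hP.isPrime, hP.absNorm_eq, hP.unramified⟩
  have hPD : Pool.Agent.T2H29.SW.PD (fun _ : Unit => P) p (fun _ => ν) :=
    ⟨hp, fun _ => hD, fun _ _ _ => rfl, fun _ => hν⟩
  have hm : Pool.Agent.T2H29.SW.mo 𝔣 (fun _ : Unit => P) (fun _ => ν) = 𝔣 * P ^ ν := by
    unfold Pool.Agent.T2H29.SW.mo
    rw [Finset.univ_unique, Finset.prod_singleton]
  have hm' : Pool.Agent.T2H29.SW.mo 𝔣 (fun _ : Unit => P)
      (Function.update (fun _ => ν) () (ν - 1)) = 𝔣 * P ^ (ν - 1) := by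
    unfold Pool.Agent.T2H29.SW.mo
    rw [Finset.univ_unique, Finset.prod_singleton]
    simp
  have hnt : 𝔣 * P ^ ν ≠ ⊤ := by
    rw [← hm]
    exact Pool.Agent.T2H29.SW.mo_ne_top hPD
  have hinf : ∀ α : 𝓞 K, α ≠ 0 → Pool.Agent.T2H29.SW.infK (k, τ) (α : K) = infType k τ (α : K) :=
    fun α hα => Pool.Agent.T2H29.SW.infK_ityp (k, τ) (by exact_mod_cast hα)
  refine hC 𝔣 P p ν (k, τ) χ hp hp7 hD hf hν ⟨?_, ?_, ?_, ?_⟩
  · intro I hI
    rw [hm] at hI
    exact hχ.zero I hI
  · intro I hI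
    rw [hm] at hI
    exact hχ.norm I hI
  · intro α hα
    rw [hm] at hα
    have h0 : α ≠ 0 := by
      rintro rfl
      apply hnt
      rw [Ideal.eq_top_iff_one]
      have := neg_mem hα
      simpa using this
    rw [hinf α h0]
    exact hχ.infinite_type α hα
  · intro j
    obtain ⟨α, h1, h2, h3⟩ := hχ.primitive
    refine ⟨α, ?_, ?_, ?_⟩
    · rw [hm']
      exact h1
    · rw [hm]
      exact h2
    · rw [hinf α (Pool.Agent.T2H29.SW.cop_ne hnt h2)]
      exact h3

end Pool.Agent.Results.MP_52e316_nt.HeckeDepthSubWeylGLm
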