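import Pool.Agent.T2H29.TA.Main2

/-!
# A sub-Weyl bound in the archimedean aspect for Hecke L-functions of all number fields

`K` is any number field, `m = [K : ℚ]`, and `χ` is any primitive unitary Hecke character of `K`
modulo any nonzero ideal `𝔮` (`𝔮 = (1)` is allowed), of any infinite type
`∏_v (σ_v α / |σ_v α|) ^ k_v |σ_v α| ^ (i τ_v)`.  Then `L(s, χ) = ∑_I χ(I) N(I)^(-s)` has a
meromorphic continuation, holomorphic off the line `re s = 1` (entire if `𝔮 ≠ (1)`), and

`|L(1/2 + i t, χ)| ≤ C ((1 + ∑ (|k_v| + |τ_v|)) N(𝔮)) ^ a (1 + |t|) ^ (m/6 - 1/4000)`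

with `C`, `a` depending only on `K`.  For `𝔮 = (1)` and `χ = 1` this is a bound for the Dedekind zeta
function of `K`.

Proof (modules `Pool.Agent.T2H29.TA`): the sums over ideal classes are sums over ideal lattices `A ℤ^m`,
balanced under all scalings of the places, of the archimedean character `∏_v |x_v|^(i t) ...` with
smooth weights.  A Weyl shift by lattice elements of relative size `T^(-1/3 + 2/(3000 m))` at every place and
Cauchy's inequality lead to differenced sums, Poisson summation over the lattice turns them into shorter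
dual sums whose phase is explicit (the stationary points are `√(h² + 1/y)`), and these short dual sums are
differenced four more times, by van der Corput's inequality in symmetric form, until the fourth difference
of the phase is locally linear on boxes of size `T^(0.008)`, where a window argument for balanced lattices
gives the extra saving.  Long sums are reduced to short ones by Poisson summation and Mellin inversion at
every place.
-/

set_option autoImplicit false

open NumberField NumberField.InfinitePlace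

namespace Pool.Agent.Results.MP_52e316_nt.HeckeTAspectSubWeylGLm

variable {K : Type} [Field K] [NumberField K]

/-- The unitary character `α ↦ ∏_v (σ_v α / |σ_v α|) ^ k_v |σ_v α| ^ (i τ_v)`; `σ_v` is an
embedding for the infinite place `v` and `|σ_v α| = v α`.  At a real place the first factor is the
`k_v`-th power of the sign. -/
noncomputable def infType (k : InfinitePlace K → ℤ) (τ : InfinitePlace K → ℝ) (α : K) : ℂ :=
  ∏ v : InfinitePlace K, (v.embedding α / ((v α : ℝ) : ℂ)) ^ k v *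
    ((v α : ℝ) : ℂ) ^ ((τ v : ℂ) * Complex.I)

/-- `χ` is a primitive unitary Hecke character of `K` modulo `𝔪` of infinite type given by `k` and
`τ`, extended by zero to the zero ideal and to the ideals not coprime to `𝔪`. -/
structure IsPrimitiveHecke (𝔪 : Ideal (𝓞 K)) (k : InfinitePlace K → ℤ)
    (τ : InfinitePlace K → ℝ) (χ : Ideal (𝓞 K) →* ℂ) : Prop where
  /-- it vanishes at the zero ideal and at the ideals not coprime to `𝔪` -/
  zero : ∀ I, I = ⊥ ∨ ¬ IsCoprime I 𝔪 → χ I = 0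
  /-- it is unitary -/
  norm : ∀ I, I ≠ ⊥ → IsCoprime I 𝔪 → ‖χ I‖ = 1
  /-- the values at the principal ideals `(α)`, `α ≡ 1` modulo `𝔪` -/
  infinite_type : ∀ α : 𝓞 K, α ≠ 0 → α - 1 ∈ 𝔪 → χ (Ideal.span {α}) = infType k τ (α : K)
  /-- it does not have this property modulo any larger ideal `𝔫` -/
  primitive : ∀ 𝔫 : Ideal (𝓞 K), 𝔪 < 𝔫 → ∃ α : 𝓞 K, α - 1 ∈ 𝔫 ∧
    IsCoprime (Ideal.span {α}) 𝔪 ∧ χ (Ideal.span {α}) ≠ infType k τ (α : K)

theorem result (K : Type) [Field K] [NumberField K] : ∃ (C : ℝ) (a : ℕ), 0 < C ∧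
    ∀ (𝔮 : Ideal (𝓞 K)) (k : InfinitePlace K → ℤ) (τ : InfinitePlace K → ℝ)
    (χ : Ideal (𝓞 K) →* ℂ), 𝔮 ≠ ⊥ → IsPrimitiveHecke 𝔮 k τ χ →
    ∃ L : ℂ → ℂ, MeromorphicOn L Set.univ ∧ (∀ s : ℂ, s.re ≠ 1 → DifferentiableAt ℂ L s) ∧
    (𝔮 ≠ ⊤ → Differentiable ℂ L) ∧
    (∀ s : ℂ, 1 < s.re →
      HasSum (fun I : Ideal (𝓞 K) => χ I * (Ideal.absNorm I : ℂ) ^ (-s)) (L s)) ∧
    ∀ t : ℝ, ‖L (1 / 2 + t * Complex.I)‖ ≤
      C * ((1 + ∑ v, (|(k v : ℝ)| + |τ v|)) * Ideal.absNorm 𝔮) ^ a *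
        (1 + |t|) ^ ((Module.finrank ℚ K : ℝ) / 6 - 1 / 4000) := by
  obtain ⟨C1, a1, hC10, hC1⟩ := Pool.Agent.T2H29.TA.main_T K
  obtain ⟨C2, a2, hC20, hC2⟩ := Pool.Agent.T2H29.TA.main_T2 K
  refine ⟨C1 + C2, a1 + a2, by positivity, fun 𝔮 k τ χ hbot hχ => ?_⟩
  have hinf : ∀ α : 𝓞 K, α ≠ 0 → Pool.Agent.T2H29.SW.infK (k, τ) (α : K) = infType k τ (α : K) :=
    fun α hα => Pool.Agent.T2H29.SW.infK_ityp (k, τ) (by exact_mod_cast hα)
  have hT1 : (1 : ℝ) ≤ 1 + ∑ v : InfinitePlace K, (|(k v : ℝ)| + |τ v|) := by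
    have : 0 ≤ ∑ v : InfinitePlace K, (|(k v : ℝ)| + |τ v|) :=
      Finset.sum_nonneg fun v _ => by positivity
    linarith
  have hQ1 : (1 : ℝ) ≤ Ideal.absNorm 𝔮 := by
    exact_mod_cast Pool.Agent.T2H29.SW.nrm_pos hbot
  have hX1 : (1 : ℝ) ≤ (1 + ∑ v : InfinitePlace K, (|(k v : ℝ)| + |τ v|)) * Ideal.absNorm 𝔮 :=
    one_le_mul_of_one_le_of_one_le hT1 hQ1
  have hY : ∀ t : ℝ, (0 : ℝ) ≤ (1 + |t|) ^ ((Module.finrank ℚ K : ℝ) / 6 - 1 / 4000) := by
    intro t
    positivity
  by_cases htop : 𝔮 = ⊤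
  · subst htop
    have hU : Pool.Agent.T2H29.TA.HU (k, τ) χ := by
      refine ⟨hχ.zero _ (Or.inl rfl), fun I hI => hχ.norm I hI ?_, fun α hα => ?_⟩
      · rw [Ideal.isCoprime_iff_sup_eq]
        exact sup_top_eq _
      · rw [hinf α hα]
        exact hχ.infinite_type α hα Submodule.mem_top
    obtain ⟨L, hL1, hL2, hL3, hL4⟩ := hC2 (k, τ) χ hU
    refine ⟨L, hL1, hL2, fun h => absurd rfl h, hL3, fun t => (hL4 t).trans ?_⟩
    refine mul_le_mul_of_nonneg_right ?_ (hY t)
    refine mul_le_mul (by linarith) ?_ (by positivity) (by positivity)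
    calc (1 + ∑ v : InfinitePlace K, (|(k v : ℝ)| + |τ v|)) ^ a2 ≤
          ((1 + ∑ v : InfinitePlace K, (|(k v : ℝ)| + |τ v|)) *
            Ideal.absNorm (⊤ : Ideal (𝓞 K))) ^ a2 :=
          pow_le_pow_left₀ (by linarith) (le_mul_of_one_le_right (by linarith) hQ1) _
      _ ≤ _ := pow_le_pow_right₀ hX1 (by omega)
  · have hm : Pool.Agent.T2H29.SW.HeckeM 𝔮 (k, τ) χ := by
      refine ⟨fun I hI => hχ.zero I (Or.inr hI), fun I hI => hχ.norm I ?_ hI, ?_, ?_⟩
      · rintro rfl
        rw [Ideal.isCoprime_iff_sup_eq, bot_sup_eq] at hI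
        exact htop hI
      · intro α hα
        have h0 : α ≠ 0 := by
          rintro rfl
          apply htop
          rw [Ideal.eq_top_iff_one]
          have := neg_mem hα
          simpa using this
        rw [hinf α h0]
        exact hχ.infinite_type α h0 hα
      · intro 𝔫 h𝔫
        obtain ⟨α, h1, h2, h3⟩ := hχ.primitive 𝔫 h𝔫
        refine ⟨α, h1, h2, ?_⟩
        rw [hinf α (Pool.Agent.T2H29.SW.cop_ne htop h2)]
        exact h3
    obtain ⟨L, hL1, hL2, hL3⟩ := hC1 𝔮 (k, τ) χ hbot htop hm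
    refine ⟨L, fun s _ => (hL1.analyticAt s).meromorphicAt, fun s _ => hL1 s, fun _ => hL1, hL2,
      fun t => (hL3 t).trans ?_⟩
    refine mul_le_mul_of_nonneg_right ?_ (hY t)
    exact mul_le_mul (by linarith) (pow_le_pow_right₀ hX1 (by omega)) (by positivity)
      (by positivity)

end Pool.Agent.Results.MP_52e316_nt.HeckeTAspectSubWeylGLm
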