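import Pool.Agent.T2H29.SW.B13

/-!
# A Weyl bound for Hecke L-functions of all number fields to factorable moduli

`K` is any number field, `m = [K : ℚ]`, and `χ` is any primitive unitary Hecke character of `K`
modulo `𝔪 = 𝔞 𝔰 𝔰'`, where `𝔰'` divides `𝔰` and every prime divisor of `𝔰'` divides `𝔞`, of any
infinite type `∏_v (σ_v α / |σ_v α|) ^ k_v |σ_v α| ^ (i τ_v)`.  Then
`L(s, χ) = ∑_I χ(I) N(I)^(-s)` is entire and

`|L(1/2 + i t, χ)| ≤ C(K, ε) ((1 + |t|) (1 + ∑ (|k_v| + |τ_v|))) ^ (3 m + 1) N(𝔪)^ε (N𝔞 + N𝔰)^(1/2)`.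

All primes are allowed: above `2`, ramified, of any degree.  With `𝔞 = 𝔰 = 𝔰' = 𝔫` this is the Weyl
bound `N(𝔪)^(1/6 + ε)` for all characters whose conductor is a cube `𝔪 = 𝔫³`.  Every `𝔪` can be
written as `𝔞 𝔰 𝔰'` with `N𝔞` and `N𝔰` at most `N(𝔪)^(1/3)` times the norm of the product of the
prime divisors of `𝔪`, so this is a Weyl bound for all powerful moduli: the analogue, over every
number field, of the estimate by differencing modulo a factor of the modulus which is known for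
`K = ℚ`.

Proof (modules `Pool.Agent.T2H29.SW`, files `B1`-`B13`): after an idempotent decomposition of the
finite part of `χ`, differencing over the sublattice `2 𝔞 I` of an ideal `I`, completion modulo
`𝔟 = 𝔰 𝔰'`; the complete sums over `𝓞 K / 𝔟` are bounded by the number of stationary points, which
is counted by the divisors of `𝔰'`; all ideal lattices are balanced, in all unit directions, so the
lattice sums over the shifts divisible by an ideal are as small as they can be.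
-/

set_option autoImplicit false

open NumberField NumberField.InfinitePlace

namespace Pool.Agent.Results.MP_52e316_nt.HeckeWeylFactorableGLm

variable {K : Type} [Field K] [NumberField K]

/-- The unitary character `α ↦ ∏_v (σ_v α / |σ_v α|) ^ k_v |σ_v α| ^ (i τ_v)`; `σ_v` is an
embedding for the infinite place `v` and `|σ_v α| = v α`.  At a real place the first factor is the
`k_v`-th power of the sign. -/
noncomputable def infType (k : InfinitePlace K → ℤ) (τ : InfinitePlace K → ℝ) (α : K) : ℂ :=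
  ∏ v : InfinitePlace K, (v.embedding α / ((v α : ℝ) : ℂ)) ^ k v *
    ((v α : ℝ) : ℂ) ^ ((τ v : ℂ) * Complex.I)

/-- `χ` is a primitive unitary Hecke character of `K` modulo `𝔪` of infinite type given by `k` and
`τ`, extended by zero to the ideals not coprime to `𝔪`. -/
structure IsPrimitiveHecke (𝔪 : Ideal (𝓞 K)) (k : InfinitePlace K → ℤ)
    (τ : InfinitePlace K → ℝ) (χ : Ideal (𝓞 K) →* ℂ) : Prop where
  /-- it vanishes at the ideals not coprime to `𝔪` -/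
  zero : ∀ I, ¬ IsCoprime I 𝔪 → χ I = 0
  /-- it is unitary -/
  norm : ∀ I, IsCoprime I 𝔪 → ‖χ I‖ = 1
  /-- the values at the principal ideals `(α)`, `α ≡ 1` modulo `𝔪` -/
  infinite_type : ∀ α : 𝓞 K, α - 1 ∈ 𝔪 → χ (Ideal.span {α}) = infType k τ (α : K)
  /-- it does not have this property modulo any larger ideal `𝔫` -/
  primitive : ∀ 𝔫 : Ideal (𝓞 K), 𝔪 < 𝔫 → ∃ α : 𝓞 K, α - 1 ∈ 𝔫 ∧
    IsCoprime (Ideal.span {α}) 𝔪 ∧ χ (Ideal.span {α}) ≠ infType k τ (α : K)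

theorem result (K : Type) [Field K] [NumberField K] (ε : ℝ) (hε : 0 < ε) : ∃ C : ℝ, 0 < C ∧
    ∀ (𝔪 𝔞 𝔰 𝔰' : Ideal (𝓞 K)) (k : InfinitePlace K → ℤ) (τ : InfinitePlace K → ℝ)
    (χ : Ideal (𝓞 K) →* ℂ),
    𝔪 ≠ ⊥ → 𝔪 ≠ ⊤ → 𝔪 = 𝔞 * 𝔰 * 𝔰' → 𝔰' ∣ 𝔰 →
    (∀ P : Ideal (𝓞 K), P.IsPrime → P ∣ 𝔰' → P ∣ 𝔞) → IsPrimitiveHecke 𝔪 k τ χ →
    ∃ L : ℂ → ℂ, Differentiable ℂ L ∧
    (∀ s : ℂ, 1 < s.re →
      HasSum (fun I : Ideal (𝓞 K) => χ I * (Ideal.absNorm I : ℂ) ^ (-s)) (L s)) ∧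
    ∀ t : ℝ, ‖L (1 / 2 + t * Complex.I)‖ ≤
      C * ((1 + ∑ v, (|(k v : ℝ)| + |τ v|)) * (1 + |t|)) ^ (3 * Module.finrank ℚ K + 1) *
        (Ideal.absNorm 𝔪 : ℝ) ^ ε * √(Ideal.absNorm 𝔞 + Ideal.absNorm 𝔰) := by
  obtain ⟨C, hC0, hC⟩ := Pool.Agent.T2H29.SW.B_thm K ε hε
  refine ⟨C, hC0, fun 𝔪 𝔞 𝔰 𝔰' k τ χ hbot htop hm hs hP hχ => ?_⟩
  subst hm
  have hinf : ∀ α : 𝓞 K, α ≠ 0 → Pool.Agent.T2H29.SW.infK (k, τ) (α : K) = infType k τ (α : K) :=
    fun α hα => Pool.Agent.T2H29.SW.infK_ityp (k, τ) (by exact_mod_cast hα)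
  refine hC 𝔞 𝔰 𝔰' (k, τ) χ hbot htop (Ideal.le_of_dvd hs)
    (fun P hP1 hP2 => Ideal.le_of_dvd (hP P hP1 (Ideal.dvd_iff_le.2 hP2)))
    ⟨hχ.zero, hχ.norm, ?_, ?_⟩
  · intro α hα
    have h0 : α ≠ 0 := by
      rintro rfl
      apply htop
      rw [Ideal.eq_top_iff_one]
      have := neg_mem hα
      simpa using this
    rw [hinf α h0]
    exact hχ.infinite_type α hα
  · intro 𝔫 h𝔫
    obtain ⟨α, h1, h2, h3⟩ := hχ.primitive 𝔫 h𝔫
    refine ⟨α, h1, h2, ?_⟩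
    rw [hinf α (Pool.Agent.T2H29.SW.cop_ne htop h2)]
    exact h3

end Pool.Agent.Results.MP_52e316_nt.HeckeWeylFactorableGLm
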